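import Pool.Agent.Helper80.EC_F.Goals

/-! Packet RINV: passing to `z = 1/y`. -/

set_option autoImplicit false

open MeasureTheory Filter Topology Set

namespace EC237.PF.PkRINV

/-- antiderivative -/
noncomputable def anti (R : Polynomial ℝ) : Polynomial ℝ :=
  ∑ k ∈ Finset.range (R.natDegree + 1),
    Polynomial.C (R.coeff k / ((k : ℝ) + 1)) * Polynomial.X ^ (k + 1)

theorem anti_coeff (R : Polynomial ℝ) : (anti R).coeff 0 = 0 := by
  unfold anti
  rw [Polynomial.finsetSum_coeff]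
  refine Finset.sum_eq_zero fun k _ => ?_
  simp

theorem anti_eval (R : Polynomial ℝ) : (anti R).eval 0 = 0 := by
  rw [← Polynomial.coeff_zero_eq_eval_zero, anti_coeff]

theorem anti_deriv (R : Polynomial ℝ) : Polynomial.derivative (anti R) = R := by
  unfold anti
  rw [Polynomial.derivative_sum]
  conv_rhs => rw [R.as_sum_range_C_mul_X_pow]
  refine Finset.sum_congr rfl fun k _ => ?_
  rw [Polynomial.derivative_C_mul_X_pow]
  have : (0:ℝ) < (k : ℝ) + 1 := by positivity
  congr 2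
  push_cast
  field_simp

theorem image_inv {ε : ℝ} (hε : 0 < ε) : (fun y : ℝ => y⁻¹) '' Ioi ε = Ioo 0 ε⁻¹ := by
  ext z
  simp only [mem_image, mem_Ioi, mem_Ioo]
  constructor
  · rintro ⟨y, hy, rfl⟩
    exact ⟨inv_pos.2 (hε.trans hy), (inv_lt_inv₀ (hε.trans hy) hε).2 hy⟩
  · rintro ⟨h1, h2⟩
    refine ⟨z⁻¹, ?_, inv_inv z⟩
    rw [lt_inv_comm₀ hε h1]
    exact h2

theorem thm : EC237.PF.G_RINV := by
  intro F E R hF hE
  have hR : Continuous fun z : ℝ => R.eval z := R.continuous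
  have key : ∀ ε : ℝ, 0 < ε → IntegrableOn F (Ioi ε) ∧
      ∫ y in Ioi ε, F y = ∫ z in Ioo 0 ε⁻¹, (R.eval z + E z) := by
    intro ε hε
    have hd : ∀ x ∈ Ioi ε, HasDerivWithinAt (fun y : ℝ => y⁻¹) (-(x ^ 2)⁻¹) (Ioi ε) x := by
      intro x hx
      exact (hasDerivAt_inv (ne_of_gt (hε.trans hx))).hasDerivWithinAt
    have hinj : InjOn (fun y : ℝ => y⁻¹) (Ioi ε) := fun x _ y _ h => inv_injective h
    have h1 := integrableOn_image_iff_integrableOn_abs_deriv_smul measurableSet_Ioi hd hinj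
      (fun z => R.eval z + E z)
    have h2 := integral_image_eq_integral_abs_deriv_smul measurableSet_Ioi hd hinj
      (fun z => R.eval z + E z)
    rw [image_inv hε] at h1 h2
    have h3 : ∀ y ∈ Ioi ε, |-(y ^ 2)⁻¹| • (R.eval y⁻¹ + E y⁻¹) = F y := by
      intro y hy
      have hy0 : 0 < y := hε.trans hy
      rw [hF y hy0, abs_neg, abs_of_pos (by positivity), smul_eq_mul]
      field_simp
    have h4 : IntegrableOn (fun z => R.eval z + E z) (Ioo 0 ε⁻¹) := by
      refine Integrable.add ?_ ?_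
      · exact (hR.integrableOn_Icc (a := 0) (b := ε⁻¹)).mono_set Ioo_subset_Icc_self
      · exact hE.mono_set Ioo_subset_Ioi_self
    constructor
    · exact (integrableOn_congr_fun h3 measurableSet_Ioi).1 (h1.1 h4)
    · rw [h2]
      exact (setIntegral_congr_fun measurableSet_Ioi h3).symm
  refine ⟨fun ε hε => (key ε hε).1, anti R, anti_coeff R, ?_⟩
  have hev : ∀ᶠ ε : ℝ in 𝓝[>] 0,
      (∫ z in (0:ℝ)..ε⁻¹, E z) = (∫ y in Ioi ε, F y) - (anti R).eval ε⁻¹ := by
    filter_upwards [self_mem_nhdsWithin] with ε hε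
    have hε : 0 < ε := hε
    have hi : 0 < ε⁻¹ := inv_pos.2 hε
    rw [(key ε hε).2]
    have h5 : ∫ z in Ioo 0 ε⁻¹, (R.eval z + E z) =
        (∫ z in (0:ℝ)..ε⁻¹, R.eval z) + ∫ z in (0:ℝ)..ε⁻¹, E z := by
      rw [← intervalIntegral.integral_add (hR.intervalIntegrable _ _)]
      · rw [intervalIntegral.integral_of_le hi.le, integral_Ioc_eq_integral_Ioo]
      · rw [intervalIntegrable_iff_integrableOn_Ioc_of_le hi.le]
        exact hE.mono_set Ioc_subset_Ioi_self
    have h6 : ∫ z in (0:ℝ)..ε⁻¹, R.eval z = (anti R).eval ε⁻¹ := by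
      have := intervalIntegral.integral_eq_sub_of_hasDerivAt (a := 0) (b := ε⁻¹)
        (f := fun z => (anti R).eval z) (f' := fun z => R.eval z)
        (fun z _ => by
          have h := (anti R).hasDerivAt z
          rwa [anti_deriv] at h) (hR.intervalIntegrable _ _)
      rw [this, anti_eval, sub_zero]
    rw [h5, h6]
    ring
  refine Tendsto.congr' hev ?_
  exact intervalIntegral_tendsto_integral_Ioi 0 hE tendsto_inv_nhdsGT_zero

end EC237.PF.PkRINV
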